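import Mathlib

/-! Peeling a finite connected graph along a family of label preserving maps (MP_d4e3d0_lc, project HL,
items (5a), (5b) of note 2702). -/

set_option autoImplicit false

namespace Pool.Agent.Helper90.HL

open Finset

variable {V E C X ι : Type*}

/-- `Peel s t f S`: the edges of `S` can be peeled one after the other, so that each edge is, at the
moment when it is removed, a leaf edge of the remaining graph, or alone in its fibre of `f` among the
remaining edges. -/
inductive Peel [DecidableEq E] (s t : E → V) (f : E → C) : Finset E → Prop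
  | nil : Peel s t f ∅
  | leafS (S : Finset E) (e : E) (he : e ∉ S) (hS : Peel s t f S) (hst : s e ≠ t e)
      (h : ∀ a ∈ S, s a ≠ s e ∧ t a ≠ s e) : Peel s t f (insert e S)
  | leafT (S : Finset E) (e : E) (he : e ∉ S) (hS : Peel s t f S) (hst : s e ≠ t e)
      (h : ∀ a ∈ S, s a ≠ t e ∧ t a ≠ t e) : Peel s t f (insert e S)
  | alone (S : Finset E) (e : E) (he : e ∉ S) (hS : Peel s t f S)
      (h : ∀ a ∈ S, f a ≠ f e) : Peel s t f (insert e S)

/-- no leaf edge -/
def Leafless (s t : E → V) (S : Finset E) : Prop :=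
  ∀ e ∈ S, s e ≠ t e → (∃ a ∈ S, a ≠ e ∧ (s a = s e ∨ t a = s e)) ∧
    (∃ a ∈ S, a ≠ e ∧ (s a = t e ∨ t a = t e))

/-- the boundary map modulo 2 -/
noncomputable def bd [Fintype E] [DecidableEq V] (s t : E → V) :
    (E → ZMod 2) →ₗ[ZMod 2] (V → ZMod 2) where
  toFun c := fun v => ∑ e, c e * ((if s e = v then 1 else 0) + (if t e = v then 1 else 0))
  map_add' a b := by
    funext v
    simp only [Pi.add_apply, add_mul, Finset.sum_add_distrib]
  map_smul' r a := by
    funext v
    simp only [Pi.smul_apply, smul_eq_mul, RingHom.id_apply, Finset.mul_sum, mul_assoc]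

theorem bd_apply [Fintype E] [DecidableEq V] (s t : E → V) (c : E → ZMod 2) (v : V) :
    bd s t c v = ∑ e, c e * ((if s e = v then 1 else 0) + (if t e = v then 1 else 0)) := rfl

/-- cycles supported on `S` -/
noncomputable def cyc [Fintype E] [DecidableEq V] (s t : E → V) (S : Finset E) :
    Submodule (ZMod 2) (E → ZMod 2) where
  carrier := {c | (∀ e, e ∉ S → c e = 0) ∧ bd s t c = 0}
  add_mem' := by
    rintro a b ⟨ha, ha'⟩ ⟨hb, hb'⟩
    refine ⟨fun e he => ?_, ?_⟩
    · rw [Pi.add_apply, ha e he, hb e he, add_zero]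
    · rw [map_add, ha', hb', add_zero]
  zero_mem' := ⟨fun _ _ => rfl, map_zero _⟩
  smul_mem' := by
    rintro r a ⟨ha, ha'⟩
    refine ⟨fun e he => ?_, ?_⟩
    · rw [Pi.smul_apply, ha e he, smul_zero]
    · rw [map_smul, ha', smul_zero]

theorem mem_cyc [Fintype E] [DecidableEq V] {s t : E → V} {S : Finset E} {c : E → ZMod 2} :
    c ∈ cyc s t S ↔ (∀ e, e ∉ S → c e = 0) ∧ bd s t c = 0 := Iff.rfl

theorem cyc_mono [Fintype E] [DecidableEq V] (s t : E → V) {S T : Finset E} (h : T ⊆ S) :
    cyc s t T ≤ cyc s t S := fun _ hc => ⟨fun e he => hc.1 e (fun h' => he (h h')), hc.2⟩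

variable [DecidableEq E]

/-- the vertices touched by `S` -/
def vs [DecidableEq V] (s t : E → V) (S : Finset E) : Finset V := S.image s ∪ S.image t

theorem mem_vs [DecidableEq V] {s t : E → V} {S : Finset E} {v : V} :
    v ∈ vs s t S ↔ ∃ e ∈ S, s e = v ∨ t e = v := by
  unfold vs
  rw [mem_union, mem_image, mem_image]
  constructor
  · rintro (⟨e, he, h⟩ | ⟨e, he, h⟩)
    · exact ⟨e, he, Or.inl h⟩
    · exact ⟨e, he, Or.inr h⟩
  · rintro ⟨e, he, h | h⟩
    · exact Or.inl ⟨e, he, h⟩
    · exact Or.inr ⟨e, he, h⟩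

theorem vs_mono [DecidableEq V] (s t : E → V) {S T : Finset E} (h : T ⊆ S) :
    vs s t T ⊆ vs s t S := by
  intro v hv
  obtain ⟨e, he, h'⟩ := mem_vs.1 hv
  exact mem_vs.2 ⟨e, h he, h'⟩

/-- the largest leafless subset -/
noncomputable def core (s t : E → V) (S : Finset E) : Finset E := by
  classical
  exact (S.powerset.filter (fun T => Leafless s t T)).sup id

theorem core_sub (s t : E → V) (S : Finset E) : core s t S ⊆ S := by
  classical
  unfold core
  intro e he
  rw [Finset.mem_sup] at he
  obtain ⟨T, hT, h⟩ := he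
  exact Finset.mem_powerset.1 (mem_filter.1 hT).1 h

theorem sub_core {s t : E → V} {S T : Finset E} (h : T ⊆ S) (hT : Leafless s t T) :
    T ⊆ core s t S := by
  classical
  unfold core
  intro e he
  rw [Finset.mem_sup]
  exact ⟨T, mem_filter.2 ⟨Finset.mem_powerset.2 h, hT⟩, he⟩

theorem core_leafless (s t : E → V) (S : Finset E) : Leafless s t (core s t S) := by
  classical
  intro e he hst
  have he' := he
  unfold core at he
  rw [Finset.mem_sup] at he
  obtain ⟨T, hT, h⟩ := he
  have h1 := (mem_filter.1 hT)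
  have h2 : T ⊆ core s t S := sub_core (Finset.mem_powerset.1 h1.1) h1.2
  obtain ⟨⟨a, ha, ha'⟩, ⟨b, hb, hb'⟩⟩ := h1.2 e h hst
  exact ⟨⟨a, h2 ha, ha'⟩, ⟨b, h2 hb, hb'⟩⟩

theorem core_eq_self {s t : E → V} {S : Finset E} (h : Leafless s t S) : core s t S = S :=
  Finset.Subset.antisymm (core_sub s t S) (sub_core (Finset.Subset.refl _) h)

/-- removing an edge outside the core does not change the core -/
theorem core_erase {s t : E → V} {S : Finset E} {e : E} (he : e ∉ core s t S) :
    core s t (S.erase e) = core s t S := by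
  apply Finset.Subset.antisymm
  · exact sub_core ((core_sub s t _).trans (Finset.erase_subset _ _)) (core_leafless s t _)
  · refine sub_core ?_ (core_leafless s t S)
    intro a ha
    refine mem_erase.2 ⟨?_, core_sub s t S ha⟩
    rintro rfl
    exact he ha

/-- the half edges at `v` in `R` -/
noncomputable def dg [DecidableEq V] (s t : E → V) (R : Finset E) (v : V) : ℕ :=
  ∑ e ∈ R, ((if s e = v then 1 else 0) + (if t e = v then 1 else 0))

theorem sum_dg [Fintype V] [DecidableEq V] (s t : E → V) (R : Finset E) :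
    ∑ v, dg s t R v = 2 * R.card := by
  unfold dg
  rw [Finset.sum_comm]
  have h : ∀ e ∈ R, ∑ v : V, ((if s e = v then 1 else 0) + (if t e = v then 1 else 0)) = 2 := by
    intro e _
    rw [Finset.sum_add_distrib, Finset.sum_ite_eq, Finset.sum_ite_eq]
    simp
  rw [Finset.sum_congr rfl h, Finset.sum_const, smul_eq_mul, mul_comm]

theorem two_le_dg [DecidableEq V] {s t : E → V} {S R : Finset E} (hS : Leafless s t S) {v : V}
    (hv : v ∈ vs s t S) (hR : ∀ e ∈ S, (s e = v ∨ t e = v) → e ∈ R) : 2 ≤ dg s t R v := by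
  obtain ⟨e, he, h⟩ := mem_vs.1 hv
  have heR := hR e he h
  by_cases hst : s e = t e
  · have h1 : s e = v := by
      rcases h with h | h
      · exact h
      · rw [hst, h]
    have h2 : t e = v := by rw [← hst, h1]
    unfold dg
    calc 2 = ((if s e = v then 1 else 0) + (if t e = v then 1 else 0)) := by
          rw [if_pos h1, if_pos h2]
      _ ≤ _ := Finset.single_le_sum (f := fun e => ((if s e = v then 1 else 0) +
          (if t e = v then 1 else 0))) (fun _ _ => Nat.zero_le _) heR
  · obtain ⟨⟨a, ha, hae, ha'⟩, ⟨b, hb, hbe, hb'⟩⟩ := hS e he hst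
    have key : ∃ a ∈ S, a ≠ e ∧ (s a = v ∨ t a = v) := by
      rcases h with h | h
      · exact ⟨a, ha, hae, by rw [← h]; exact ha'⟩
      · exact ⟨b, hb, hbe, by rw [← h]; exact hb'⟩
    obtain ⟨c, hc, hce, hc'⟩ := key
    have hcR := hR c hc hc'
    have hsub : ({e, c} : Finset E) ⊆ R := by
      intro x hx
      rw [mem_insert, mem_singleton] at hx
      rcases hx with rfl | rfl
      · exact heR
      · exact hcR
    have hone : ∀ x : E, (s x = v ∨ t x = v) →
        1 ≤ ((if s x = v then 1 else 0) + (if t x = v then 1 else 0) : ℕ) := by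
      intro x hx
      rcases hx with hx | hx
      · rw [if_pos hx]
        omega
      · rw [if_pos hx]
        omega
    unfold dg
    calc 2 = 1 + 1 := rfl
      _ ≤ ((if s e = v then 1 else 0) + (if t e = v then 1 else 0)) +
          ((if s c = v then 1 else 0) + (if t c = v then 1 else 0)) :=
          Nat.add_le_add (hone e h) (hone c hc')
      _ = ∑ x ∈ ({e, c} : Finset E), ((if s x = v then 1 else 0) + (if t x = v then 1 else 0)) := by
          rw [Finset.sum_pair (fun h => hce h.symm)]
      _ ≤ _ := Finset.sum_le_sum_of_subset hsub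

/-- the drop of the potential -/
theorem drop [Fintype E] [Fintype V] [DecidableEq V] {s t : E → V} {S : Finset E}
    (hS : Leafless s t S) {u : E} (hu : u ∈ S) :
    (core s t (S.erase u)).card + Module.finrank (ZMod 2) (cyc s t (core s t (S.erase u))) +
      (vs s t S).card + 1 ≤
    S.card + Module.finrank (ZMod 2) (cyc s t S) + (vs s t (core s t (S.erase u))).card := by
  classical
  obtain ⟨T, hT⟩ : ∃ T, T = core s t (S.erase u) := ⟨_, rfl⟩
  rw [← hT]
  have hTS : T ⊆ S := by
    rw [hT]
    exact (core_sub s t _).trans (Finset.erase_subset _ _)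
  have huT : u ∉ T := by
    rw [hT]
    intro h
    exact (mem_erase.1 (core_sub s t _ h)).1 rfl
  obtain ⟨R, hR⟩ : ∃ R, R = S \ T := ⟨_, rfl⟩
  obtain ⟨W, hW⟩ : ∃ W, W = vs s t S \ vs s t T := ⟨_, rfl⟩
  have hRc : R.card + T.card = S.card := by
    rw [hR]
    exact Finset.card_sdiff_add_card_eq_card hTS
  have hWc : W.card + (vs s t T).card = (vs s t S).card := by
    rw [hW]
    exact Finset.card_sdiff_add_card_eq_card (vs_mono s t hTS)
  have hmemR : ∀ v ∈ W, ∀ e ∈ S, (s e = v ∨ t e = v) → e ∈ R := by
    intro v hv e he h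
    rw [hR]
    refine mem_sdiff.2 ⟨he, fun heT => ?_⟩
    rw [hW] at hv
    exact (mem_sdiff.1 hv).2 (mem_vs.2 ⟨e, heT, h⟩)
  have hdg : ∀ v ∈ W, 2 ≤ dg s t R v := by
    intro v hv
    refine two_le_dg hS ?_ (hmemR v hv)
    rw [hW] at hv
    exact (mem_sdiff.1 hv).1
  have hsum := sum_dg s t R
  have hsplit : ∑ v ∈ W, dg s t R v + ∑ v ∈ Finset.univ \ W, dg s t R v = 2 * R.card := by
    rw [← hsum, add_comm]
    exact Finset.sum_sdiff (Finset.subset_univ W)
  have hge : 2 * W.card ≤ ∑ v ∈ W, dg s t R v := by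
    have := Finset.card_nsmul_le_sum W (fun v => dg s t R v) 2 hdg
    rw [smul_eq_mul] at this
    omega
  have hz : Module.finrank (ZMod 2) (cyc s t T) ≤ Module.finrank (ZMod 2) (cyc s t S) :=
    Submodule.finrank_mono (cyc_mono s t hTS)
  by_cases hlt : W.card < R.card
  · omega
  · have heq : W.card = R.card := by omega
    have h1 : ∑ v ∈ W, dg s t R v = 2 * W.card := by omega
    have h2 : ∑ v ∈ Finset.univ \ W, dg s t R v = 0 := by omega
    have h3 : ∀ v ∈ W, dg s t R v = 2 := by
      by_contra hcon
      push Not at hcon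
      obtain ⟨v, hv, hne⟩ := hcon
      have h4 : ∑ v ∈ W, (2 : ℕ) < ∑ v ∈ W, dg s t R v := by
        refine Finset.sum_lt_sum hdg ⟨v, hv, ?_⟩
        have := hdg v hv
        omega
      rw [Finset.sum_const, smul_eq_mul] at h4
      omega
    have h5 : ∀ v, v ∉ W → dg s t R v = 0 := by
      intro v hv
      exact (Finset.sum_eq_zero_iff.1 h2) v (mem_sdiff.2 ⟨Finset.mem_univ _, hv⟩)
    have hlt' : cyc s t T < cyc s t S := by
      refine lt_of_le_of_ne (cyc_mono s t hTS) ?_
      intro hE
      have hc : (fun e => if e ∈ R then (1 : ZMod 2) else 0) ∈ cyc s t S := by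
        refine ⟨fun e he => ?_, ?_⟩
        · refine if_neg (fun h => he ?_)
          rw [hR] at h
          exact (mem_sdiff.1 h).1
        · funext v
          rw [bd_apply]
          have h6 : ∑ e, (if e ∈ R then (1 : ZMod 2) else 0) *
              ((if s e = v then 1 else 0) + (if t e = v then 1 else 0)) =
              ((dg s t R v : ℕ) : ZMod 2) := by
            unfold dg
            rw [Nat.cast_sum]
            simp only [ite_mul, one_mul, zero_mul]
            rw [← Finset.sum_filter]
            have h7 : (Finset.univ.filter (fun e => e ∈ R)) = R := by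
              ext e
              simp
            rw [h7]
            refine Finset.sum_congr rfl fun e _ => ?_
            push_cast
            rfl
          rw [h6]
          by_cases hv : v ∈ W
          · rw [h3 v hv]
            rfl
          · rw [h5 v hv]
            rfl
      rw [← hE] at hc
      have h8 := hc.1 u huT
      have h9 : u ∈ R := by
        rw [hR]
        exact mem_sdiff.2 ⟨hu, huT⟩
      beta_reduce at h8
      rw [if_pos h9] at h8
      exact one_ne_zero h8
    have := Submodule.finrank_lt_finrank_of_lt hlt'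
    omega

/-- points in fibres of size at least two -/
theorem card_not_alone [DecidableEq C] (f : E → C) (S : Finset E) :
    (S.filter (fun u => ∃ a ∈ S, a ≠ u ∧ f a = f u)).card ≤ 2 * (S.card - (S.image f).card) := by
  classical
  have h1 : S.card = ∑ c ∈ S.image f, (S.filter (fun a => f a = c)).card :=
    Finset.card_eq_sum_card_image f S
  have h2 : (S.filter (fun u => ∃ a ∈ S, a ≠ u ∧ f a = f u)).card =
      ∑ c ∈ S.image f, ((S.filter (fun u => ∃ a ∈ S, a ≠ u ∧ f a = f u)).filter
        (fun a => f a = c)).card := by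
    refine Finset.card_eq_sum_card_fiberwise ?_
    intro a ha
    exact Finset.mem_image_of_mem f (mem_filter.1 ha).1
  have h3 : (S.image f).card = ∑ c ∈ S.image f, 1 := by
    rw [Finset.sum_const, smul_eq_mul, mul_one]
  have h4 : ∀ c ∈ S.image f, 1 ≤ (S.filter (fun a => f a = c)).card := by
    intro c hc
    obtain ⟨a, ha, hac⟩ := mem_image.1 hc
    exact Finset.card_pos.2 ⟨a, mem_filter.2 ⟨ha, hac⟩⟩
  have h5 : ∀ c ∈ S.image f, ((S.filter (fun u => ∃ a ∈ S, a ≠ u ∧ f a = f u)).filter
        (fun a => f a = c)).card + 2 ≤ 2 * (S.filter (fun a => f a = c)).card := by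
    intro c hc
    have h6 := h4 c hc
    by_cases h7 : 2 ≤ (S.filter (fun a => f a = c)).card
    · have h8 : ((S.filter (fun u => ∃ a ∈ S, a ≠ u ∧ f a = f u)).filter
        (fun a => f a = c)).card ≤ (S.filter (fun a => f a = c)).card := by
        refine Finset.card_le_card ?_
        exact Finset.filter_subset_filter _ (Finset.filter_subset _ _)
      omega
    · have h8 : ((S.filter (fun u => ∃ a ∈ S, a ≠ u ∧ f a = f u)).filter
        (fun a => f a = c)) = ∅ := by
        rw [Finset.eq_empty_iff_forall_notMem]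
        intro u hu
        obtain ⟨hu1, hu2⟩ := mem_filter.1 hu
        obtain ⟨hu3, a, ha, hau, hf⟩ := mem_filter.1 hu1
        apply h7
        have : ({a, u} : Finset E) ⊆ S.filter (fun a => f a = c) := by
          intro x hx
          rw [mem_insert, mem_singleton] at hx
          rcases hx with rfl | rfl
          · exact mem_filter.2 ⟨ha, by rw [hf, hu2]⟩
          · exact mem_filter.2 ⟨hu3, hu2⟩
        have h9 := Finset.card_le_card this
        rw [Finset.card_pair hau] at h9
        exact h9
      rw [h8, Finset.card_empty]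
      omega
  have h6 := Finset.sum_le_sum h5
  rw [Finset.sum_add_distrib, ← Finset.mul_sum, ← h1, ← h2] at h6
  have h7 : ∑ c ∈ S.image f, 2 = 2 * (S.image f).card := by
    rw [Finset.sum_const, smul_eq_mul, mul_comm]
  rw [h7] at h6
  omega

/-- item (5a): in a nonempty set of edges of one label some edge is identified with others in at most
one petal -/
theorem exists_act_le_one [DecidableEq C] (f : ι → E → C) (S : Finset E) (I : Finset ι)
    (hforest : ∑ i ∈ I, (S.card - (S.image (f i)).card) + 1 ≤ S.card) :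
    ∃ u ∈ S, (I.filter (fun i => ∃ a ∈ S, a ≠ u ∧ f i a = f i u)).card ≤ 1 := by
  classical
  by_contra hcon
  push Not at hcon
  have h1 : ∑ u ∈ S, (I.filter (fun i => ∃ a ∈ S, a ≠ u ∧ f i a = f i u)).card =
      ∑ i ∈ I, (S.filter (fun u => ∃ a ∈ S, a ≠ u ∧ f i a = f i u)).card := by
    simp only [Finset.card_filter]
    exact Finset.sum_comm
  have h2 : ∑ i ∈ I, (S.filter (fun u => ∃ a ∈ S, a ≠ u ∧ f i a = f i u)).card ≤
      ∑ i ∈ I, 2 * (S.card - (S.image (f i)).card) :=
    Finset.sum_le_sum fun i _ => card_not_alone (f i) S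
  rw [← Finset.mul_sum] at h2
  have h3 : ∑ u ∈ S, 2 ≤
      ∑ u ∈ S, (I.filter (fun i => ∃ a ∈ S, a ≠ u ∧ f i a = f i u)).card :=
    Finset.sum_le_sum fun u hu => hcon u hu
  rw [Finset.sum_const, smul_eq_mul, h1] at h3
  omega

/-- a subset which is not leafless has a leaf edge -/
theorem exists_leaf {s t : E → V} {S : Finset E} (h : ¬ Leafless s t S) :
    ∃ e ∈ S, s e ≠ t e ∧ ((∀ a ∈ S.erase e, s a ≠ s e ∧ t a ≠ s e) ∨
      (∀ a ∈ S.erase e, s a ≠ t e ∧ t a ≠ t e)) := by
  classical
  unfold Leafless at h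
  push Not at h
  obtain ⟨e, he, hst, h⟩ := h
  refine ⟨e, he, hst, ?_⟩
  by_cases h1 : ∃ a ∈ S, a ≠ e ∧ (s a = s e ∨ t a = s e)
  · right
    intro a ha
    have h2 := h h1 a (mem_erase.1 ha).2 (mem_erase.1 ha).1
    exact h2
  · left
    intro a ha
    push Not at h1
    exact h1 a (mem_erase.1 ha).2 (mem_erase.1 ha).1

/-- the main induction -/
theorem peel_aux [Fintype E] [Fintype V] [DecidableEq V] [DecidableEq C] {s t : E → V}
    (lab : E → X) (f : ι → E → C) (hlab : ∀ i a b, f i a = f i b → lab a = lab b)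
    (I : Finset ι)
    (hforest : ∀ S : Finset E, S.Nonempty → (∀ a ∈ S, ∀ b ∈ S, lab a = lab b) →
      ∀ J ⊆ I, ∑ i ∈ J, (S.card - (S.image (f i)).card) + 1 ≤ S.card) :
    ∀ (m : ℕ) (S : Finset E), S.card = m → ∀ J ⊆ I,
      (core s t S).card + Module.finrank (ZMod 2) (cyc s t (core s t S)) + 1 ≤
        J.card + (vs s t (core s t S)).card → ∃ i ∈ J, Peel s t (f i) S := by
  classical
  intro m
  induction m with
  | zero =>
    intro S hS J hJ hc
    have hS' : S = ∅ := Finset.card_eq_zero.1 hS
    have h1 : core s t S = ∅ := by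
      have := core_sub s t S
      rw [hS'] at this
      rw [hS']
      exact Finset.subset_empty.1 this
    rw [h1] at hc
    have h2 : vs s t (∅ : Finset E) = ∅ := by
      unfold vs
      simp
    rw [h2, Finset.card_empty, Finset.card_empty] at hc
    have h3 : 0 < J.card := by omega
    obtain ⟨i, hi⟩ := Finset.card_pos.1 h3
    refine ⟨i, hi, ?_⟩
    rw [hS']
    exact Peel.nil
  | succ m ih =>
    intro S hS J hJ hc
    by_cases hL : Leafless s t S
    · have hcS : core s t S = S := core_eq_self hL
      rw [hcS] at hc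
      have hne : S.Nonempty := Finset.card_pos.1 (by omega)
      obtain ⟨e0, he0⟩ := hne
      have hSx : (S.filter (fun a => lab a = lab e0)).Nonempty :=
        ⟨e0, mem_filter.2 ⟨he0, rfl⟩⟩
      obtain ⟨u, hu, hact⟩ := exists_act_le_one f (S.filter (fun a => lab a = lab e0)) J
        (hforest _ hSx (fun a ha b hb => (mem_filter.1 ha).2.trans (mem_filter.1 hb).2.symm) J hJ)
      have huS : u ∈ S := (mem_filter.1 hu).1
      have hulab : lab u = lab e0 := (mem_filter.1 hu).2
      obtain ⟨J', hJ'⟩ : ∃ J', J' = J \ (J.filter (fun i => ∃ a ∈ S.filter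
        (fun a => lab a = lab e0), a ≠ u ∧ f i a = f i u)) := ⟨_, rfl⟩
      have hJ'c : J.card ≤ J'.card + 1 := by
        have := Finset.card_sdiff_add_card_eq_card (Finset.filter_subset
          (fun i => ∃ a ∈ S.filter (fun a => lab a = lab e0), a ≠ u ∧ f i a = f i u) J)
        rw [hJ']
        omega
      have hJ'J : J' ⊆ J := by
        rw [hJ']
        exact Finset.sdiff_subset
      have hdrop := drop hL huS
      have hvs : (vs s t (core s t (S.erase u))).card ≤ (vs s t S).card :=
        Finset.card_le_card (vs_mono s t ((core_sub s t _).trans (Finset.erase_subset _ _)))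
      obtain ⟨i, hi, hp⟩ := ih (S.erase u) (by rw [Finset.card_erase_of_mem huS]; omega) J'
        (hJ'J.trans hJ) (by omega)
      refine ⟨i, hJ'J hi, ?_⟩
      rw [← Finset.insert_erase huS]
      refine Peel.alone _ u (Finset.notMem_erase _ _) hp ?_
      intro a ha hf
      rw [hJ'] at hi
      obtain ⟨hi1, hi2⟩ := mem_sdiff.1 hi
      apply hi2
      refine mem_filter.2 ⟨hi1, a, mem_filter.2 ⟨(mem_erase.1 ha).2, ?_⟩, (mem_erase.1 ha).1, hf⟩
      rw [hlab i a u hf, hulab]
    · obtain ⟨e, he, hst, hleaf⟩ := exists_leaf hL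
      have hec : e ∉ core s t S := by
        intro hec
        obtain ⟨⟨a, ha, hae, ha'⟩, ⟨b, hb, hbe, hb'⟩⟩ := core_leafless s t S e hec hst
        rcases hleaf with h | h
        · have := h a (mem_erase.2 ⟨hae, core_sub s t S ha⟩)
          rcases ha' with h' | h'
          · exact this.1 h'
          · exact this.2 h'
        · have := h b (mem_erase.2 ⟨hbe, core_sub s t S hb⟩)
          rcases hb' with h' | h'
          · exact this.1 h'
          · exact this.2 h'
      have hce := core_erase hec
      obtain ⟨i, hi, hp⟩ := ih (S.erase e) (by rw [Finset.card_erase_of_mem he]; omega) J hJ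
        (by rw [hce]; exact hc)
      refine ⟨i, hi, ?_⟩
      rw [← Finset.insert_erase he]
      rcases hleaf with h | h
      · exact Peel.leafS _ e (Finset.notMem_erase _ _) hp hst h
      · exact Peel.leafT _ e (Finset.notMem_erase _ _) hp hst h

/-- connectedness -/
def Conn (s t : E → V) : Prop :=
  ∀ v w, Relation.EqvGen (fun a b => ∃ e, s e = a ∧ t e = b) v w

theorem bd_single [Fintype E] [DecidableEq V] (s t : E → V) (e : E) :
    bd s t (Pi.single e 1) = Pi.single (s e) 1 + Pi.single (t e) 1 := by
  funext v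
  rw [bd_apply, Finset.sum_eq_single e]
  · rw [Pi.single_eq_same, one_mul, Pi.add_apply, Pi.single_apply, Pi.single_apply]
    simp only [eq_comm]
  · intro a _ hae
    rw [Pi.single_eq_of_ne hae, zero_mul]
  · intro h
    exact absurd (Finset.mem_univ e) h

theorem add_self_two (x : V → ZMod 2) : x + x = 0 := by
  funext v
  rw [Pi.add_apply, Pi.zero_apply]
  exact CharTwo.add_self_eq_zero (x v)

theorem conn_range [Fintype E] [DecidableEq V] {s t : E → V} {v w : V}
    (h : Relation.EqvGen (fun a b => ∃ e, s e = a ∧ t e = b) v w) :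
    (Pi.single v 1 + Pi.single w 1 : V → ZMod 2) ∈ LinearMap.range (bd s t) := by
  induction h with
  | rel a b h =>
    obtain ⟨e, rfl, rfl⟩ := h
    exact ⟨Pi.single e 1, bd_single s t e⟩
  | refl a =>
    rw [add_self_two]
    exact Submodule.zero_mem _
  | symm a b _ ih =>
    rw [add_comm]
    exact ih
  | trans a b c _ _ ih1 ih2 =>
    have h := Submodule.add_mem _ ih1 ih2
    have h2 : (Pi.single a 1 + Pi.single b 1 + (Pi.single b 1 + Pi.single c 1) : V → ZMod 2) =
        Pi.single a 1 + Pi.single c 1 + (Pi.single b 1 + Pi.single b 1) := by abel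
    rw [h2, add_self_two, add_zero] at h
    exact h

end Pool.Agent.Helper90.HL
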